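import Pool.Agent.W508.NS.All

/-!
# MP_913761_an: a topologically transitive nilspace system is ergodic (and uniquely ergodic)
-/

open MeasureTheory

namespace Pool.Agent.Results.MP_913761_an.TransitiveUniquelyErgodic

open Pool.W508.NS

universe u v

/-- For every `k`-step compact nilspace `X` with Haar measure `μ` and every group `G` acting on
`X` by translations: if the action is topologically transitive then `μ` is ergodic, and `μ` is
the only invariant Borel probability measure. -/
theorem result : ∀ (k : ℕ) (X : Type u) [TopologicalSpace X] [MeasurableSpace X] [BorelSpace X]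
    (C : ∀ n, Set (Cube n → X)), IsCompactNilspace C → IsStep k C →
    ∀ μ : Measure X, IsHaar k X C μ →
    ∀ (G : Type v) [Group G] (φ : G →* (X ≃ₜ X)), (∀ g, IsTranslation C (φ g)) →
    TopTransitive φ → IsErgodic φ μ ∧ IsUniquelyErgodic φ μ := by
  intro k X _ _ _ C hC hst μ hμ G _ φ hφ htr
  exact final pp liftC k X C hC hst μ hμ G φ hφ htr

end Pool.Agent.Results.MP_913761_an.TransitiveUniquelyErgodic
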